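import Pool.Agent.Helper13.M.Defs
import Pool.Agent.Helper29.L.K5
import Pool.Agent.SC.G1
import Pool.Agent.Helper17.FF.Transport
import Pool.Agent.Helper17.FF.PicDiv

/-!
# Project M, block NR: the branch points are permuted, none is fixed

The automorphisms `Φ σ` permute the places of `L0 = E K0`, in the same way for all actions. If all of
them fix a branch point `b`, then the residue of `x ∈ K0` at `b` is fixed by `Gal(E/k)`, so it is in
`k`, and the point of `K0` below `b` is a `k`-rational branch point.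
-/

set_option autoImplicit false

namespace Pool.Agent.M

open VC IntermediateField NumberField IsDedekindDomain Pool.Agent.SC Pool.Agent.L

noncomputable section

section

variable {k K0 E U : Type} [Field k] [Field K0] [Field E] [Field U] [Algebra k K0]
    [Algebra k E] [Algebra E U] [Algebra K0 U] {r : U} {c c' : k}
    {Φ Φ' : (E ≃ₐ[k] E) →* (U ≃+* U)}

theorem phi_mem59 (hΦ : Act (K0 := K0) r c Φ) (g : E ≃ₐ[k] E) {x : U}
    (hx : x ∈ L0 E K0 (U := U)) : Φ g x ∈ L0 E K0 (U := U) := by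
  refine map_adjoin29 (fun e => ⟨g e, hΦ.const g e⟩) ?_ hx
  rintro y ⟨y, rfl⟩
  rw [hΦ.fixK]
  exact subset_adjoin _ _ ⟨y, rfl⟩

theorem phi_eq59 (hΦ : Act (K0 := K0) r c Φ) (hΦ' : Act (K0 := K0) r c' Φ') (g : E ≃ₐ[k] E) {x : U}
    (hx : x ∈ L0 E K0 (U := U)) : Φ g x = Φ' g x := by
  change x ∈ IntermediateField.adjoin E (Set.range (algebraMap K0 U)) at hx
  induction hx using IntermediateField.adjoin_induction with
  | mem x hx =>
    obtain ⟨y, rfl⟩ := hx
    rw [hΦ.fixK, hΦ'.fixK]
  | algebraMap e => rw [hΦ.const, hΦ'.const]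
  | add x y hx hy ihx ihy => rw [map_add, map_add, ihx, ihy]
  | inv x hx ih => rw [map_inv₀, map_inv₀, ih]
  | mul x y hx hy ihx ihy => rw [map_mul, map_mul, ihx, ihy]

omit [Algebra E U] in
theorem phi_inv59 (Φ : (E ≃ₐ[k] E) →* (U ≃+* U)) (g : E ≃ₐ[k] E) (x : U) :
    Φ g (Φ g⁻¹ x) = x := by
  have h1 : Φ g * Φ g⁻¹ = 1 := by rw [← map_mul, mul_inv_cancel, map_one]
  exact congrArg (fun g : U ≃+* U => g x) h1

omit [Algebra E U] in
theorem phi_inv59' (Φ : (E ≃ₐ[k] E) →* (U ≃+* U)) (g : E ≃ₐ[k] E) (x : U) :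
    Φ g⁻¹ (Φ g x) = x := by
  have h1 : Φ g⁻¹ * Φ g = 1 := by rw [← map_mul, inv_mul_cancel, map_one]
  exact congrArg (fun g : U ≃+* U => g x) h1

/-- the action on `L0` -/
def res59 (hΦ : Act (K0 := K0) r c Φ) (g : E ≃ₐ[k] E) :
    L0 E K0 (U := U) ≃+* L0 E K0 (U := U) where
  toFun x := ⟨Φ g x, phi_mem59 hΦ g x.2⟩
  invFun x := ⟨Φ g⁻¹ x, phi_mem59 hΦ g⁻¹ x.2⟩
  left_inv x := Subtype.ext (phi_inv59' Φ g x)
  right_inv x := Subtype.ext (phi_inv59 Φ g x)
  map_mul' x y := Subtype.ext (map_mul (Φ g) (x : U) y)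
  map_add' x y := Subtype.ext (map_add (Φ g) (x : U) y)

theorem coe_res59 (hΦ : Act (K0 := K0) r c Φ) (g : E ≃ₐ[k] E) (x : L0 E K0 (U := U)) :
    ((res59 hΦ g x : L0 E K0 (U := U)) : U) = Φ g x := rfl

theorem res59_const (hΦ : Act (K0 := K0) r c Φ) (g : E ≃ₐ[k] E) (a : E) :
    res59 hΦ g (algebraMap E (L0 E K0 (U := U)) a) =
      algebraMap E (L0 E K0 (U := U)) (g.toRingEquiv a) :=
  Subtype.ext (hΦ.const g a)

theorem res59_inL0 (hΦ : Act (K0 := K0) r c Φ) (g : E ≃ₐ[k] E) (x : K0) :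
    res59 hΦ g (inL0 x) = inL0 (E := E) (U := U) x :=
  Subtype.ext (hΦ.fixK g x)

/-- the image of a place -/
def mv59 (hΦ : Act (K0 := K0) r c Φ) (g : E ≃ₐ[k] E) (b : Place E (L0 E K0 (U := U))) :
    Place E (L0 E K0 (U := U)) :=
  FF.img (res59 hΦ g) g.toRingEquiv (res59_const hΦ g) b

theorem moves_iff59 (hΦ : Act (K0 := K0) r c Φ) (g : E ≃ₐ[k] E)
    (b b' : Place E (L0 E K0 (U := U))) : Moves (Φ g) _ b b' ↔ b' = mv59 hΦ g b := by
  constructor
  · intro h
    ext y
    obtain ⟨x, rfl⟩ := (res59 hΦ g).surjective y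
    rw [mv59, FF.mem_img']
    exact (h x x.2 (phi_mem59 hΦ g x.2)).symm
  · rintro rfl x hx hx'
    exact (FF.mem_img' (res59 hΦ g) g.toRingEquiv (res59_const hΦ g) b ⟨x, hx⟩).symm

end

/-- **BLOCK NR.** -/
theorem nR : StmtNR := by
  intro k K0 E U _ _ _ _ _ _ _ _ _ _ _ _ h r geo
  have hcl : IsAlgClosed E := geo.clE
  have halg : Algebra.IsAlgebraic k E := geo.algE
  have hch : CharZero E := charZero_of_injective_algebraMap (algebraMap k E).injective
  have hff : IsFunctionField E (L0 E K0 (U := U)) := geo.ff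
  have hr0 : r ≠ 0 := by
    rintro rfl
    exact geo.rnot (zero_mem _)
  have hh0 : h ≠ 0 := by
    rintro rfl
    have h1 := geo.rsq
    rw [map_zero] at h1
    exact hr0 (pow_eq_zero_iff two_ne_zero |>.1 h1)
  have hin0 : ∀ x : K0, x ≠ 0 → inL0 (E := E) (U := U) x ≠ 0 := by
    intro x hx h1
    have h2 : algebraMap K0 U x = 0 := congrArg Subtype.val h1
    exact hx ((map_eq_zero _).1 h2)
  refine ⟨?_, ?_, ?_⟩
  · intro c Φ hc hΦ hno b hb
    by_contra hcon
    push Not at hcon
    -- the place of `K0` below `b`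
    let j : K0 →+* L0 E K0 (U := U) :=
      (algebraMap K0 U).codRestrict (L0 E K0 (U := U)).toSubfield fun x =>
        subset_adjoin _ _ ⟨x, rfl⟩
    have hj : ∀ x : K0, j x = inL0 x := fun x => rfl
    have hjk : ∀ a : k, j (algebraMap k K0 a) =
        algebraMap E (L0 E K0 (U := U)) (algebraMap k E a) := by
      intro a
      apply Subtype.ext
      change algebraMap K0 U (algebraMap k K0 a) = algebraMap E U (algebraMap k E a)
      rw [← IsScalarTower.algebraMap_apply k K0 U, ← IsScalarTower.algebraMap_apply k E U]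
    let P : ValuationSubring K0 := b.ring.comap j
    have hP : ∀ x : K0, x ∈ P ↔ j x ∈ b.ring := fun x => Iff.rfl
    have hPn : ∀ x : K0, x ∈ P.nonunits ↔ j x ∈ b.ring.nonunits := by
      intro x
      rw [ValuationSubring.mem_nonunits_iff_or, ValuationSubring.mem_nonunits_iff_or, ← map_inv₀,
        ← hP, map_eq_zero]
    obtain ⟨x, hxP, hx⟩ := hno P (fun a => by
      rw [hP, hjk]
      exact b.algebraMap_mem _) (by
      intro z hz
      have hz0 : z ≠ 0 := by
        rintro rfl
        rw [map_zero, zero_pow two_ne_zero, Valuation.zero_iff] at hz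
        exact hh0 hz
      apply hb
      have hv : P.valuation (h / z ^ 2) = 1 := by
        rw [map_div₀, hz, map_pow, div_self]
        exact pow_ne_zero _ ((Valuation.ne_zero_iff _).2 hz0)
      have h1 : j (h / z ^ 2) ∈ b.ring := by
        rw [← hP, ← P.valuation_le_one_iff, hv]
      have h2 : j (h / z ^ 2) ∉ b.ring.nonunits := by
        rw [← hPn, ValuationSubring.mem_nonunits_iff, hv]
        exact lt_irrefl _
      have h3 : j (h / z ^ 2) ≠ 0 := (map_ne_zero j).2 (div_ne_zero hh0 (pow_ne_zero _ hz0))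
      have h4 : ord b.ring (j (h / z ^ 2)) = 0 := by
        have h5 := (FF.ord_nonneg_iff hff b h3).2 h1
        have h6 := mt (FF.ord_pos_iff hff b h3).1 h2
        omega
      have hjz : j z ≠ 0 := (map_ne_zero j).2 hz0
      have hjh : j h ≠ 0 := (map_ne_zero j).2 hh0
      rw [map_div₀, map_pow, FF.ord_div hff b hjh (pow_ne_zero _ hjz),
        FF.ord_pow hff b hjz] at h4
      rw [← hj]
      exact ⟨ord b.ring (j z), by push_cast at h4; linarith⟩)
    obtain ⟨e, he⟩ := FF.exists_residue hff b ((hP x).1 hxP)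
    have hfix : ∀ σ : E ≃ₐ[k] E, σ e = e := by
      intro σ
      have h1 := hcon σ
      rw [moves_iff59 hΦ] at h1
      have h2 : res59 hΦ σ (j x - algebraMap E _ e) ∈ b.ring.nonunits := by
        rw [h1]
        exact (FF.nonunits_img (res59 hΦ σ) σ.toRingEquiv (res59_const hΦ σ) b _).2 he
      have h3 : res59 hΦ σ (j x - algebraMap E _ e) =
          j x - algebraMap E (L0 E K0 (U := U)) (σ e) := by
        rw [map_sub, hj, res59_inL0, res59_const]
        rfl
      rw [h3] at h2
      exact FF.residue_unique b h2 he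
    have hgal : IsGalois k E := by
      have h1 : IsAlgClosure k E := ⟨hcl, halg⟩
      exact ⟨⟩
    have hmem : e ∈ (⊥ : IntermediateField k E) := by
      rw [InfiniteGalois.mem_bot_iff_fixed]
      exact hfix
    obtain ⟨a, rfl⟩ := IntermediateField.mem_bot.1 hmem
    refine hx a ?_
    rw [hPn, map_sub, hjk]
    exact he
  · refine (FF.finite_support_ord hff (hin0 h hh0)).subset ?_
    intro b hb h0
    apply hb
    rw [h0]
    exact dvd_zero _
  · intro c Φ hc hΦ
    refine ⟨fun σ b => ⟨mv59 hΦ σ b, (moves_iff59 hΦ σ b _).2 rfl, fun b' hb' =>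
      (moves_iff59 hΦ σ b b').1 hb'⟩, ?_, ?_, ?_⟩
    · intro σ b b' hbb
      rw [moves_iff59 hΦ] at hbb
      subst hbb
      have h1 : ord (mv59 hΦ σ b).ring (inL0 (E := E) (U := U) h) =
          ord b.ring (inL0 (E := E) (U := U) h) := by
        conv_lhs => rw [← res59_inL0 hΦ σ h]
        exact FF.ord_img (res59 hΦ σ) σ.toRingEquiv (res59_const hΦ σ) hff b _
      unfold BPl
      rw [h1]
    · intro c' Φ' _ hΦ' σ b b'
      unfold Moves
      constructor
      · intro h1 x hx hx'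
        have h2 := phi_eq59 hΦ hΦ' σ hx
        have h3 := h1 x hx (by rw [h2]; exact hx')
        rw [h3]
        simp only [h2]
      · intro h1 x hx hx'
        have h2 := phi_eq59 hΦ hΦ' σ hx
        have h3 := h1 x hx (by rw [← h2]; exact hx')
        rw [h3]
        simp only [h2]
    · intro b
      obtain ⟨n, hn⟩ := exists_pole hff (P0 := b) (FF.riemann hff)
      obtain ⟨t, ht, ht0, hto⟩ := hn (n + 1) (Nat.le_succ n)
      have htb : t ∉ b.ring := by
        intro h1
        have h2 := (FF.ord_nonneg_iff hff b ht0).2 h1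
        rw [hto] at h2
        push_cast at h2
        omega
      obtain ⟨L, hL1, hL2⟩ := hΦ.cont (t : U)
      refine ⟨L, hL1, fun σ hσ => ?_⟩
      rw [moves_iff59 hΦ]
      by_contra hne
      have h1 : t ∈ (mv59 hΦ σ b).ring := ht _ fun h2 => hne h2.symm
      have h2 : res59 hΦ σ t = t := Subtype.ext (hL2 σ hσ)
      rw [← h2] at h1
      exact htb ((FF.mem_img' (res59 hΦ σ) σ.toRingEquiv (res59_const hΦ σ) b t).1 h1)

end

end Pool.Agent.M
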